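import Mathlib

/-! # MP_cd9ed6_co, Q1: the case `k = 3`, and for every `k` the families whose levels are at most 1 or that reach level `k - 1`

For a family `F` of `k`-subsets of `[n]` the level of `A ∈ F` is `i_F(A)`.

* `k = 3`: `Φ_{n,3}(F) ≤ 1` for every `n ≥ N_3 = 7` and every `F`.
* every `k ≥ 3`, `n ≥ 3k - 2`: `Φ ≤ 1` if no member has level `≥ 2` (circle method with two weights; `n ≥ 2k` suffices).
* every `k ≥ 3`, `n ≥ 3k - 2` (in particular `n ≥ N_k`): `Φ ≤ 1` if some member has level `≥ k - 1`.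
-/

set_option linter.all false

namespace Pool.Agent.Results.MP_cd9ed6_co.LevelBounds

open Finset

/-- `i_F(A)`: the least value of `|A ∩ B|` as `B` ranges over `F` (including `B = A`). -/
noncomputable def iF {n : ℕ} (F : Finset (Finset (Fin n))) (A : Finset (Fin n)) : ℕ :=
  sInf {m | ∃ B ∈ F, m = (A ∩ B).card}

/-- `Φ_{n,k}(F) = ∑_{A ∈ F} 1 / C(n - j, k - j)` with `j = i_F(A)`. -/
noncomputable def Phi (n k : ℕ) (F : Finset (Finset (Fin n))) : ℚ :=
  ∑ A ∈ F, 1 / (((n - iF F A).choose (k - iF F A) : ℕ) : ℚ)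

/-- `N_k = k + ⌈k/2⌉ (⌊k/2⌋ + 1)`. -/
def Nk (k : ℕ) : ℕ := k + ((k + 1) / 2) * (k / 2 + 1)

namespace Avg

/-- averaging over all labellings of the circle.
Proof: sum hloc over all σ: LHS = Σ_i Σ_σ f(σ(S+i)) = N * Σ_σ f(σ S) (reindex σ by (Equiv.addRight i).trans σ)
= N * Σ_A f(A) * c, where c = #{σ | S.image σ = A} does not depend on A with |A| = |S|
(transitivity: Equiv.extendSubtype gives a perm of Fin N carrying A to A'), and N! = c * N.choose |S|. -/
theorem avg (N : ℕ) [NeZero N] (f : Finset (Fin N) → ℕ) (S : Finset (ZMod N)) (C : ℕ)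
    (hloc : ∀ σ : ZMod N ≃ Fin N, ∑ i : ZMod N, f ((S.image (· + i)).image σ) ≤ C) :
    N * ∑ A ∈ powersetCard S.card univ, f A ≤ C * N.choose S.card := by
  classical
  have hmaps : ∀ σ ∈ (univ : Finset (ZMod N ≃ Fin N)),
      S.image σ ∈ powersetCard S.card (univ : Finset (Fin N)) := by
    intro σ _
    rw [mem_powersetCard]
    exact ⟨subset_univ _, card_image_of_injective _ σ.injective⟩
  let c : Finset (Fin N) → ℕ := fun A =>
    (univ.filter (fun σ : ZMod N ≃ Fin N => S.image σ = A)).card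
  have hle : ∀ A ∈ powersetCard S.card (univ : Finset (Fin N)),
      ∀ A' ∈ powersetCard S.card (univ : Finset (Fin N)), c A ≤ c A' := by
    intro A hA A' hA'
    rw [mem_powersetCard] at hA hA'
    have hcard : A.card = A'.card := hA.2.trans hA'.2.symm
    let e : {x // x ∈ A} ≃ {x // x ∈ A'} := Finset.equivOfCardEq hcard
    let π : Equiv.Perm (Fin N) := Equiv.extendSubtype e
    have hπ : A.image π = A' := by
      apply eq_of_subset_of_card_le
      · intro y hy
        obtain ⟨x, hx, rfl⟩ := mem_image.mp hy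
        exact Equiv.extendSubtype_mem e x hx
      · rw [card_image_of_injective _ π.injective, hcard]
    apply card_le_card_of_injOn (fun σ : ZMod N ≃ Fin N => σ.trans π)
    · intro σ hσ
      have hσ' : S.image σ = A := by simpa using hσ
      have h1 : S.image (σ.trans π) = (S.image σ).image π := by rw [image_image]; rfl
      have h2 : S.image (σ.trans π) = A' := by rw [h1, hσ', hπ]
      simpa using h2
    · intro σ _ τ _ h
      apply Equiv.ext
      intro x
      apply π.injective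
      exact congrArg (fun e : ZMod N ≃ Fin N => e x) h
  have hcN : Fintype.card (ZMod N) = Fintype.card (Fin N) := by
    rw [ZMod.card, Fintype.card_fin]
  let σ₀ : ZMod N ≃ Fin N := Fintype.equivOfCardEq hcN
  have hA₀ := hmaps σ₀ (mem_univ _)
  set A₀ : Finset (Fin N) := S.image σ₀ with hA₀def
  have hc : ∀ A ∈ powersetCard S.card (univ : Finset (Fin N)), c A = c A₀ := fun A hA =>
    le_antisymm (hle A hA A₀ hA₀) (hle A₀ hA₀ A hA)
  have hc0 : 0 < c A₀ := by
    apply card_pos.mpr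
    exact ⟨σ₀, by simp [hA₀def]⟩
  have hsum : ∑ σ : ZMod N ≃ Fin N, f (S.image σ) =
      c A₀ * ∑ A ∈ powersetCard S.card (univ : Finset (Fin N)), f A := by
    rw [← sum_fiberwise_of_maps_to hmaps, mul_sum]
    apply sum_congr rfl
    intro A hA
    rw [← hc A hA]
    have : ∀ σ ∈ univ.filter (fun σ : ZMod N ≃ Fin N => S.image σ = A), f (S.image σ) = f A := by
      intro σ hσ
      rw [(mem_filter.mp hσ).2]
    rw [sum_congr rfl this, sum_const, smul_eq_mul]
  have htot : c A₀ * N.choose S.card = Fintype.card (ZMod N ≃ Fin N) := by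
    have h1 := card_eq_sum_card_fiberwise hmaps
    rw [card_univ] at h1
    rw [h1, sum_congr rfl (fun A hA => hc A hA), sum_const, card_powersetCard, card_univ,
      Fintype.card_fin, smul_eq_mul, mul_comm]
  have hdouble : N * ∑ σ : ZMod N ≃ Fin N, f (S.image σ) ≤
      Fintype.card (ZMod N ≃ Fin N) * C := by
    calc N * ∑ σ : ZMod N ≃ Fin N, f (S.image σ)
        = ∑ _i : ZMod N, ∑ σ : ZMod N ≃ Fin N, f (S.image σ) := by
          rw [sum_const, card_univ, ZMod.card, smul_eq_mul]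
      _ = ∑ i : ZMod N, ∑ σ : ZMod N ≃ Fin N, f ((S.image (· + i)).image σ) := by
          apply sum_congr rfl
          intro i _
          symm
          apply Fintype.sum_equiv (Equiv.equivCongr (Equiv.addRight i).symm (Equiv.refl (Fin N)))
          intro σ
          congr 1
          rw [image_image]
          rfl
      _ = ∑ σ : ZMod N ≃ Fin N, ∑ i : ZMod N, f ((S.image (· + i)).image σ) := sum_comm
      _ ≤ ∑ _σ : ZMod N ≃ Fin N, C := sum_le_sum fun σ _ => hloc σ
      _ = Fintype.card (ZMod N ≃ Fin N) * C := by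
          rw [sum_const, card_univ, smul_eq_mul]
  rw [hsum, ← htot] at hdouble
  have h3 : c A₀ * (N * ∑ A ∈ powersetCard S.card (univ : Finset (Fin N)), f A) ≤
      c A₀ * (C * N.choose S.card) := by
    calc c A₀ * (N * ∑ A ∈ powersetCard S.card (univ : Finset (Fin N)), f A)
        = N * (c A₀ * ∑ A ∈ powersetCard S.card (univ : Finset (Fin N)), f A) := by ring
      _ ≤ c A₀ * N.choose S.card * C := hdouble
      _ = c A₀ * (C * N.choose S.card) := by ring
  exact Nat.le_of_mul_le_mul_left h3 hc0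

end Avg

namespace Circle

theorem circleK_sum_image_le {α β : Type*} [DecidableEq β] (S : Finset α) (f : α → β) (w : β → ℕ) :
    ∑ x ∈ S.image f, w x ≤ ∑ s ∈ S, w (f s) := by
  classical
  induction S using Finset.induction_on with
  | empty => simp
  | insert a S ha ih =>
    rw [Finset.image_insert, Finset.sum_insert ha]
    by_cases hm : f a ∈ S.image f
    · rw [Finset.insert_eq_of_mem hm]; omega
    · rw [Finset.sum_insert hm]; omega

theorem circleK_sum_union_le {β : Type*} [DecidableEq β] (A B : Finset β) (w : β → ℕ) :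
    ∑ x ∈ A ∪ B, w x ≤ ∑ x ∈ A, w x + ∑ x ∈ B, w x := by
  rw [← Finset.sum_union_inter]; exact Nat.le_add_right _ _

/-- no integer `e` with `0 < e < N` is zero modulo `N` -/
theorem circleK_aux (N : ℕ) [NeZero N] (e : ℤ) (h1 : 0 < e) (h2 : e < N) (h : ((e : ℤ) : ZMod N) = 0) : False := by
  rw [ZMod.intCast_zmod_eq_zero_iff_dvd] at h
  have := Int.le_of_dvd h1 h
  omega

/-- circle lemma, arcs of length k on the cycle of length N ≥ 2k: each element of `X1` is within cyclic distance k-1 of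
every element of `X0 ∪ X1`.
Proof: if X1 = ∅ use card_le_univ. Else fix i ∈ X1; all of X0 ∪ X1 lies in {i-(k-1),...,i+(k-1)}; consider the k-1 pairs
(i - s, i + k - s), s = 1..k-1: the two starts are at cyclic distance exactly k (N ≥ 2k), so if one is in X1 the other is in
neither. If p pairs contain an element of X1, then |X1| ≤ 1 + p and |X0| ≤ 2(k-1-p), so
k|X0| + N|X1| ≤ 2k(k-1-p) + N(1+p) ≤ N(k-1-p) + N(1+p) = kN.
(Formally: k*[a∈X0]+N*[a∈X1] + k*[b∈X0]+N*[b∈X1] ≤ N for each pair (a,b), and N for i itself; sum.) -/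
theorem circleK (N k : ℕ) [NeZero N] (hk : 1 ≤ k) (hN : 2 * k ≤ N) (X0 X1 : Finset (ZMod N)) (hd : Disjoint X0 X1)
    (h : ∀ i ∈ X1, ∀ j ∈ X0 ∪ X1, ∃ d : ℤ, -(k : ℤ) < d ∧ d < k ∧ j - i = (d : ZMod N)) :
    k * X0.card + N * X1.card ≤ k * N := by
  classical
  rcases X1.eq_empty_or_nonempty with h0 | ⟨i, hi⟩
  · subst h0
    have h1 : X0.card ≤ N := by
      have := Finset.card_le_univ X0
      rwa [ZMod.card] at this
    simpa using Nat.mul_le_mul_left k h1
  · set w : ZMod N → ℕ := fun x => (if x ∈ X0 then k else 0) + (if x ∈ X1 then N else 0) with hw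
    have hsum : ∑ x : ZMod N, w x = k * X0.card + N * X1.card := by
      simp [hw, Finset.sum_add_distrib, Finset.sum_ite_mem, mul_comm]
    have hdis : ∀ x, x ∈ X0 → x ∈ X1 → False := fun x h1 h2 => Finset.disjoint_left.mp hd h1 h2
    -- the pairs
    have hpair : ∀ a b : ZMod N, b - a = ((k : ℤ) : ZMod N) → w a + w b ≤ N := by
      intro a b hab
      have key1 : a ∈ X1 → b ∈ X0 ∪ X1 → False := by
        intro ha hb
        obtain ⟨d, hd1, hd2, hd3⟩ := h a ha b hb
        apply circleK_aux N ((k : ℤ) - d) (by omega) (by omega)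
        push_cast
        rw [hab] at hd3
        push_cast at hd3
        rw [hd3]; ring
      have key2 : b ∈ X1 → a ∈ X0 ∪ X1 → False := by
        intro hb ha
        obtain ⟨d, hd1, hd2, hd3⟩ := h b hb a ha
        apply circleK_aux N ((k : ℤ) + d) (by omega) (by omega)
        push_cast
        have h4 : a - b = - ((k : ℤ) : ZMod N) := by rw [← hab]; ring
        rw [h4] at hd3
        push_cast at hd3
        rw [← hd3]; ring
      have na0 : a ∈ X0 → a ∈ X1 → False := hdis a
      have nb0 : b ∈ X0 → b ∈ X1 → False := hdis b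
      simp only [Finset.mem_union] at key1 key2
      simp only [hw]
      by_cases a0 : a ∈ X0 <;> by_cases a1 : a ∈ X1 <;> by_cases b0 : b ∈ X0 <;> by_cases b1 : b ∈ X1 <;>
        simp only [a0, a1, b0, b1, if_true, if_false] <;>
        first
          | omega
          | exact absurd (hdis a a0 a1) id
          | exact absurd (hdis b b0 b1) id
          | exact absurd (key1 a1 (Or.inl b0)) id
          | exact absurd (key1 a1 (Or.inr b1)) id
          | exact absurd (key2 b1 (Or.inl a0)) id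
          | exact absurd (key2 b1 (Or.inr a1)) id
    have hwi : w i = N := by
      have : i ∉ X0 := fun h' => hdis i h' hi
      simp [hw, this, hi]
    set T2 : Finset (ZMod N) := (Finset.Ico 1 k).image (fun s : ℕ => i - (s : ZMod N)) with hT2
    set T3 : Finset (ZMod N) := (Finset.Ico 1 k).image (fun s : ℕ => i + (k : ZMod N) - (s : ZMod N)) with hT3
    have hcover : ∀ x : ZMod N, x ∉ ({i} ∪ (T2 ∪ T3) : Finset (ZMod N)) → w x = 0 := by
      intro x hx
      by_contra hne
      have hx01 : x ∈ X0 ∪ X1 := by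
        by_contra hn
        rw [Finset.mem_union, not_or] at hn
        apply hne
        simp [hw, hn.1, hn.2]
      obtain ⟨d, hd1, hd2, hd3⟩ := h i hi x hx01
      apply hx
      have hxe : x = i + (d : ZMod N) := by rw [← hd3]; ring
      rcases lt_trichotomy d 0 with hlt | heq | hgt
      · -- d < 0, s = -d
        apply Finset.mem_union_right
        apply Finset.mem_union_left
        rw [hT2, Finset.mem_image]
        refine ⟨(-d).toNat, ?_, ?_⟩
        · rw [Finset.mem_Ico]; omega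
        · have : (((-d).toNat : ℕ) : ZMod N) = ((((-d).toNat : ℕ) : ℤ) : ZMod N) := by push_cast; rfl
          rw [this, Int.toNat_of_nonneg (by omega), hxe]
          push_cast; ring
      · apply Finset.mem_union_left
        rw [hxe, heq]; simp
      · apply Finset.mem_union_right
        apply Finset.mem_union_right
        rw [hT3, Finset.mem_image]
        refine ⟨((k : ℤ) - d).toNat, ?_, ?_⟩
        · rw [Finset.mem_Ico]; omega
        · have : ((((k : ℤ) - d).toNat : ℕ) : ZMod N) = (((((k : ℤ) - d).toNat : ℕ) : ℤ) : ZMod N) := by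
            push_cast; rfl
          rw [this, Int.toNat_of_nonneg (by omega), hxe]
          push_cast; ring
    have h1 : ∑ x : ZMod N, w x = ∑ x ∈ ({i} ∪ (T2 ∪ T3) : Finset (ZMod N)), w x := by
      symm
      apply Finset.sum_subset (Finset.subset_univ _)
      intro x _ hx
      exact hcover x hx
    have h2 : ∑ x ∈ ({i} ∪ (T2 ∪ T3) : Finset (ZMod N)), w x
        ≤ w i + (∑ x ∈ T2, w x + ∑ x ∈ T3, w x) := by
      refine (circleK_sum_union_le _ _ _).trans ?_
      have := circleK_sum_union_le T2 T3 w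
      simp only [Finset.sum_singleton]
      omega
    have h3 : ∑ x ∈ T2, w x ≤ ∑ s ∈ Finset.Ico 1 k, w (i - (s : ZMod N)) :=
      circleK_sum_image_le _ _ _
    have h4 : ∑ x ∈ T3, w x ≤ ∑ s ∈ Finset.Ico 1 k, w (i + (k : ZMod N) - (s : ZMod N)) :=
      circleK_sum_image_le _ _ _
    have h5 : ∑ s ∈ Finset.Ico 1 k, w (i - (s : ZMod N)) + ∑ s ∈ Finset.Ico 1 k, w (i + (k : ZMod N) - (s : ZMod N))
        ≤ (k - 1) * N := by
      rw [← Finset.sum_add_distrib]
      calc _ ≤ ∑ s ∈ Finset.Ico 1 k, N := by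
            apply Finset.sum_le_sum
            intro s _
            apply hpair
            push_cast; ring
        _ = (k - 1) * N := by simp
    have h6 : N + (k - 1) * N = k * N := by
      obtain ⟨m, rfl⟩ : ∃ m, k = m + 1 := ⟨k - 1, by omega⟩
      simp; ring
    rw [← hsum, h1]
    omega

end Circle

namespace Low

/-- From circleK and avg with S = image of {0,..,k-1}, f A = k*[A ∈ F0] + N*[A ∈ F1], C = k*N;
the arcs {i,..,i+k-1} (images under σ) for starts i, j meet only if j - i ∈ {-(k-1),..,k-1}. -/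
theorem caseIIK
    (circleK : ∀ (N k : ℕ) [NeZero N] (_ : 1 ≤ k) (_ : 2 * k ≤ N) (X0 X1 : Finset (ZMod N)) (_ : Disjoint X0 X1)
      (_ : ∀ i ∈ X1, ∀ j ∈ X0 ∪ X1, ∃ d : ℤ, -(k : ℤ) < d ∧ d < k ∧ j - i = (d : ZMod N)),
      k * X0.card + N * X1.card ≤ k * N)
    (avg : ∀ (N : ℕ) [NeZero N] (f : Finset (Fin N) → ℕ) (S : Finset (ZMod N)) (C : ℕ)
      (_ : ∀ σ : ZMod N ≃ Fin N, ∑ i : ZMod N, f ((S.image (· + i)).image σ) ≤ C),
      N * ∑ A ∈ powersetCard S.card univ, f A ≤ C * N.choose S.card)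
    (N k : ℕ) (hk : 1 ≤ k) (hN : 2 * k ≤ N) (F0 F1 : Finset (Finset (Fin N))) (h0 : ∀ A ∈ F0, A.card = k)
    (h1 : ∀ A ∈ F1, A.card = k) (hd : Disjoint F0 F1)
    (h : ∀ A ∈ F1, ∀ B ∈ F0 ∪ F1, (A ∩ B).Nonempty) :
    k * F0.card + N * F1.card ≤ k * N.choose k := by
  classical
  haveI hNZ : NeZero N := ⟨by omega⟩
  have hNpos : 0 < N := by omega
  obtain ⟨S, hS⟩ : ∃ S : Finset (ZMod N), S = (range k).image (fun m : ℕ => (m : ZMod N)) := ⟨_, rfl⟩
  have hScard : S.card = k := by
    rw [hS, Finset.card_image_of_injOn, Finset.card_range]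
    intro a ha b hb hab
    rw [Finset.coe_range, Set.mem_Iio] at ha hb
    have := (ZMod.natCast_eq_natCast_iff' a b N).mp hab
    rwa [Nat.mod_eq_of_lt (by omega), Nat.mod_eq_of_lt (by omega)] at this
  have key := avg N (fun A => (if A ∈ F0 then k else 0) + (if A ∈ F1 then N else 0)) S (k * N) ?_
  · rw [hScard] at key
    have hsum : ∑ A ∈ powersetCard k univ, ((if A ∈ F0 then k else 0) + (if A ∈ F1 then N else 0))
        = k * F0.card + N * F1.card := by
      rw [Finset.sum_add_distrib, Finset.sum_ite_mem, Finset.sum_ite_mem]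
      have e0 : powersetCard k univ ∩ F0 = F0 := by
        rw [Finset.inter_eq_right]
        intro A hA
        rw [Finset.mem_powersetCard]
        exact ⟨Finset.subset_univ _, h0 A hA⟩
      have e1 : powersetCard k univ ∩ F1 = F1 := by
        rw [Finset.inter_eq_right]
        intro A hA
        rw [Finset.mem_powersetCard]
        exact ⟨Finset.subset_univ _, h1 A hA⟩
      rw [e0, e1, Finset.sum_const, Finset.sum_const, smul_eq_mul, smul_eq_mul, mul_comm F0.card,
        mul_comm F1.card]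
    rw [hsum] at key
    have key2 : N * (k * F0.card + N * F1.card) ≤ N * (k * N.choose k) := by
      calc N * (k * F0.card + N * F1.card) ≤ k * N * N.choose k := key
        _ = N * (k * N.choose k) := by ring
    exact Nat.le_of_mul_le_mul_left key2 hNpos
  · intro σ
    obtain ⟨g, hg⟩ : ∃ g : ZMod N → Finset (Fin N), g = fun i => (S.image (· + i)).image σ := ⟨_, rfl⟩
    have hgi : ∀ i, (S.image (· + i)).image σ = g i := fun i => by rw [hg]
    have e0 : ∑ i : ZMod N, (if g i ∈ F0 then k else 0) = k * (univ.filter (fun i => g i ∈ F0)).card := by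
      rw [← Finset.sum_filter, Finset.sum_const, smul_eq_mul, mul_comm]
    have e1 : ∑ i : ZMod N, (if g i ∈ F1 then N else 0) = N * (univ.filter (fun i => g i ∈ F1)).card := by
      rw [← Finset.sum_filter, Finset.sum_const, smul_eq_mul, mul_comm]
    have e2 : ∑ i : ZMod N, ((if (S.image (· + i)).image σ ∈ F0 then k else 0) +
        (if (S.image (· + i)).image σ ∈ F1 then N else 0)) =
        k * (univ.filter (fun i => g i ∈ F0)).card + N * (univ.filter (fun i => g i ∈ F1)).card := by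
      rw [← e0, ← e1, ← Finset.sum_add_distrib]
      apply Finset.sum_congr rfl
      intro i _
      rw [hgi i]
    have goal2 : ∑ i : ZMod N, ((if (S.image (· + i)).image σ ∈ F0 then k else 0) +
        (if (S.image (· + i)).image σ ∈ F1 then N else 0)) ≤ k * N := by
      rw [e2]
      apply circleK N k hk hN
      · rw [Finset.disjoint_left]
        intro i hi hi'
        rw [Finset.mem_filter] at hi hi'
        exact (Finset.disjoint_left.mp hd) hi.2 hi'.2
      · intro i hi j hj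
        rw [Finset.mem_filter] at hi
        have hj2 : g j ∈ F0 ∪ F1 := by
          rw [Finset.mem_union, Finset.mem_filter, Finset.mem_filter] at hj
          rw [Finset.mem_union]
          rcases hj with hj | hj
          · exact Or.inl hj.2
          · exact Or.inr hj.2
        obtain ⟨x, hx⟩ := h (g i) hi.2 (g j) hj2
        rw [Finset.mem_inter, hg] at hx
        obtain ⟨hx1, hx2⟩ := hx
        simp only [Finset.mem_image] at hx1 hx2
        obtain ⟨u, ⟨a, ha, rfl⟩, hu⟩ := hx1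
        obtain ⟨v, ⟨b, hb, rfl⟩, hv⟩ := hx2
        rw [hS, Finset.mem_image] at ha hb
        obtain ⟨a', ha', rfl⟩ := ha
        obtain ⟨b', hb', rfl⟩ := hb
        rw [Finset.mem_range] at ha' hb'
        have heq : (a' : ZMod N) + i = (b' : ZMod N) + j := σ.injective (hu.trans hv.symm)
        refine ⟨(a' : ℤ) - b', by omega, by omega, ?_⟩
        push_cast
        linear_combination -heq
    exact goal2

end Low

namespace HighOne

theorem iF_le {n : ℕ} (F : Finset (Finset (Fin n))) (A C : Finset (Fin n)) (hC : C ∈ F) :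
    iF F A ≤ (A ∩ C).card := Nat.sInf_le ⟨C, hC, rfl⟩

theorem iF_ge {n : ℕ} (F : Finset (Finset (Fin n))) (A : Finset (Fin n)) (c : ℕ) (hne : F.Nonempty)
    (h : ∀ C ∈ F, c ≤ (A ∩ C).card) : c ≤ iF F A := by
  obtain ⟨C, hC⟩ := hne
  have hmem : iF F A ∈ {m | ∃ B ∈ F, m = (A ∩ B).card} := Nat.sInf_mem ⟨_, C, hC, rfl⟩
  obtain ⟨B, hB, hBe⟩ := hmem
  rw [hBe]
  exact h B hB

theorem term_le (n k i : ℕ) (hkn : k ≤ n) (hi : i + 2 ≤ k) :
    1 / (((n - i).choose (k - i) : ℕ) : ℚ) ≤ 2 / (((n - k : ℕ) + 1 : ℚ) * ((n - k : ℕ) + 2)) := by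
  obtain ⟨m, rfl⟩ : ∃ m, n = k + m := ⟨n - k, by omega⟩
  obtain ⟨j, rfl⟩ : ∃ j, k = i + 2 + j := ⟨k - (i + 2), by omega⟩
  have e1 : i + 2 + j + m - i = m + (2 + j) := by omega
  have e2 : i + 2 + j - i = 2 + j := by omega
  have e3 : i + 2 + j + m - (i + 2 + j) = m := by omega
  rw [e1, e2, e3]
  have h1 : (m + 2).choose 2 ≤ (m + (2 + j)).choose (2 + j) := by
    have a1 : (m + 2).choose 2 = (m + 2).choose m := by
      rw [Nat.choose_symm_add]
    have a2 : (m + (2 + j)).choose (2 + j) = (m + (2 + j)).choose m := by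
      rw [Nat.choose_symm_add]
    rw [a1, a2]
    exact Nat.choose_le_choose m (by omega)
  have h2 : 2 * (m + 2).choose 2 = (m + 1) * (m + 2) := by
    have := Nat.choose_two_right (m + 2)
    have hd : 2 ∣ (m + 2) * (m + 2 - 1) := by
      have : m + 2 - 1 = m + 1 := by omega
      rw [this, mul_comm]
      exact (Nat.even_mul_succ_self (m + 1)).two_dvd
    rw [this, Nat.mul_div_cancel' hd]
    have : m + 2 - 1 = m + 1 := by omega
    rw [this]; ring
  have h1' : (((m + 2).choose 2 : ℕ) : ℚ) ≤ (((m + (2 + j)).choose (2 + j) : ℕ) : ℚ) := by exact_mod_cast h1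
  have h2' : 2 * (((m + 2).choose 2 : ℕ) : ℚ) = ((m : ℚ) + 1) * (m + 2) := by exact_mod_cast h2
  have hpos : (0 : ℚ) < (m : ℚ) + 1 := by positivity
  have hpos2 : (0 : ℚ) < (m : ℚ) + 2 := by positivity
  have hc : (0 : ℚ) < (((m + 2).choose 2 : ℕ) : ℚ) := by nlinarith [mul_pos hpos hpos2]
  rw [div_le_div_iff₀ (lt_of_lt_of_le hc h1') (mul_pos hpos hpos2)]
  nlinarith

theorem count_le (n k : ℕ) (hk : 1 ≤ k) (F : Finset (Finset (Fin n))) (hF : ∀ A ∈ F, A.card = k)
    (A : Finset (Fin n)) (hA : A ∈ F) (hA2 : ∀ C ∈ F, k - 1 ≤ (A ∩ C).card) :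
    (F.erase A).card ≤ k * (n - k) := by
  have hAc := hF A hA
  have key : ∀ B ∈ F.erase A, (A \ B).card = 1 ∧ (B \ A).card = 1 := by
    intro B hB
    have hBne := (Finset.mem_erase.mp hB).1
    have hBF := (Finset.mem_erase.mp hB).2
    have hBc := hF B hBF
    have h1 := hA2 B hBF
    have h2 : (A ∩ B).card ≠ k := by
      intro h
      have e1 : A ∩ B = A := Finset.eq_of_subset_of_card_le Finset.inter_subset_left (by rw [h, hAc])
      have e2 : A ∩ B = B := Finset.eq_of_subset_of_card_le Finset.inter_subset_right (by rw [h, hBc])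
      exact hBne (e2.symm.trans e1)
    have h3 : (A ∩ B).card ≤ k := by
      rw [← hAc]; exact Finset.card_le_card Finset.inter_subset_left
    have h4 := Finset.card_sdiff_add_card_inter A B
    have h5 := Finset.card_sdiff_add_card_inter B A
    rw [Finset.inter_comm B A] at h5
    omega
  have hcard : ((A.powersetCard 1) ×ˢ ((Finset.univ \ A).powersetCard 1)).card = k * (n - k) := by
    rw [Finset.card_product, Finset.card_powersetCard, Finset.card_powersetCard, Nat.choose_one_right,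
      Nat.choose_one_right, hAc, Finset.card_sdiff_of_subset (Finset.subset_univ A), Finset.card_univ, Fintype.card_fin, hAc]
  rw [← hcard]
  refine Finset.card_le_card_of_injOn (fun B => (A \ B, B \ A)) ?_ ?_
  · intro B hB
    obtain ⟨h1, h2⟩ := key B (Finset.mem_coe.mp hB)
    rw [Finset.mem_coe, Finset.mem_product, Finset.mem_powersetCard, Finset.mem_powersetCard]
    exact ⟨⟨Finset.sdiff_subset, h1⟩, Finset.sdiff_subset_sdiff (Finset.subset_univ B) (le_refl A), h2⟩
  · intro B1 _ B2 _ h12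
    have e1 : A \ B1 = A \ B2 := congrArg Prod.fst h12
    have e2 : B1 \ A = B2 \ A := congrArg Prod.snd h12
    ext x
    have f1 : x ∈ A \ B1 ↔ x ∈ A \ B2 := by rw [e1]
    have f2 : x ∈ B1 \ A ↔ x ∈ B2 \ A := by rw [e2]
    simp only [Finset.mem_sdiff] at f1 f2
    tauto

/-- exactly one member A meets all members in ≥ k-1 elements (and |F| ≥ 2).
Proof: m = n-k ≥ 2k-2. Term of A is ≤ 1/(m+1) (some other member meets A in ≤ k-1); every other member B has |A ∩ B| = k-1
and i_F(B) ≤ k-2 (so term ≤ 1/choose (m+2) 2), and there are ≤ k*m of them;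
1/(m+1) + 2km/((m+1)(m+2)) ≤ 1 iff m ≥ 2k-2. -/
theorem caseIK' (n k : ℕ) (hk : 3 ≤ k) (hn : 3 * k - 2 ≤ n) (F : Finset (Finset (Fin n))) (hF : ∀ A ∈ F, A.card = k)
    (A : Finset (Fin n)) (hA : A ∈ F) (hA2 : ∀ C ∈ F, k - 1 ≤ (A ∩ C).card)
    (h : ∀ B ∈ F, B ≠ A → ∃ C ∈ F, (B ∩ C).card ≤ k - 2) (h2 : 2 ≤ F.card) : Phi n k F ≤ 1 := by
  have hkn : k ≤ n := by omega
  have hAc := hF A hA
  -- another member
  obtain ⟨B0, hB0, hB0A⟩ : ∃ B ∈ F, B ≠ A := by
    obtain ⟨x, hx, y, hy, hxy⟩ := Finset.one_lt_card.mp (by omega : 1 < F.card)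
    by_cases hxa : x = A
    · exact ⟨y, hy, fun hya => hxy (hxa.trans hya.symm)⟩
    · exact ⟨x, hx, hxa⟩
  have hIA : iF F A = k - 1 := by
    apply le_antisymm
    · refine (iF_le F A B0 hB0).trans ?_
      have h3 : (A ∩ B0).card ≤ k := by
        rw [← hAc]; exact Finset.card_le_card Finset.inter_subset_left
      have h2 : (A ∩ B0).card ≠ k := by
        intro h
        have e1 : A ∩ B0 = A := Finset.eq_of_subset_of_card_le Finset.inter_subset_left (by rw [h, hAc])
        have e2 : A ∩ B0 = B0 := Finset.eq_of_subset_of_card_le Finset.inter_subset_right (by rw [h, hF B0 hB0])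
        exact hB0A (e2.symm.trans e1)
      omega
    · exact iF_ge F A (k - 1) ⟨A, hA⟩ hA2
  have hcnt := count_le n k (by omega) F hF A hA hA2
  obtain ⟨m, hm⟩ : ∃ m, n = k + m := ⟨n - k, by omega⟩
  have hnk : n - k = m := by omega
  have hmk : 2 * k ≤ m + 2 := by omega
  unfold Phi
  rw [← Finset.add_sum_erase F _ hA, hIA]
  have eA : (n - (k - 1)).choose (k - (k - 1)) = m + 1 := by
    have a1 : n - (k - 1) = m + 1 := by omega
    have a2 : k - (k - 1) = 1 := by omega
    rw [a1, a2, Nat.choose_one_right]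
  rw [eA]
  have hsum : ∑ B ∈ F.erase A, 1 / (((n - iF F B).choose (k - iF F B) : ℕ) : ℚ)
      ≤ (F.erase A).card • (2 / (((n - k : ℕ) + 1 : ℚ) * ((n - k : ℕ) + 2))) := by
    refine Finset.sum_le_card_nsmul _ _ _ (fun B hB => ?_)
    obtain ⟨hBA, hBF⟩ := Finset.mem_erase.mp hB
    obtain ⟨C, hC, hBC⟩ := h B hBF hBA
    have hi := (iF_le F B C hC).trans hBC
    exact term_le n k _ hkn (by omega)
  rw [nsmul_eq_mul, hnk] at hsum
  rw [hnk] at hcnt
  have hcnt' : ((F.erase A).card : ℚ) ≤ (k : ℚ) * m := by exact_mod_cast hcnt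
  have hmk' : 2 * (k : ℚ) ≤ m + 2 := by exact_mod_cast hmk
  have hm0 : (0 : ℚ) ≤ m := by positivity
  have hp1 : (0 : ℚ) < (m : ℚ) + 1 := by positivity
  have hp2 : (0 : ℚ) < (m : ℚ) + 2 := by positivity
  have hq : (0 : ℚ) ≤ 2 / (((m : ℚ) + 1) * (m + 2)) := by positivity
  have h5 : ((F.erase A).card : ℚ) * (2 / (((m : ℚ) + 1) * (m + 2))) ≤ ((k : ℚ) * m) * (2 / (((m : ℚ) + 1) * (m + 2))) :=
    mul_le_mul_of_nonneg_right hcnt' hq
  have h6 : 1 / ((m + 1 : ℕ) : ℚ) + ((k : ℚ) * m) * (2 / (((m : ℚ) + 1) * (m + 2))) ≤ 1 := by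
    push_cast
    have e : 1 / ((m : ℚ) + 1) + ((k : ℚ) * m) * (2 / (((m : ℚ) + 1) * (m + 2)))
        = ((m + 2) + 2 * k * m) / (((m : ℚ) + 1) * (m + 2)) := by
      field_simp
    rw [e, div_le_one (mul_pos hp1 hp2)]
    nlinarith
  linarith

end HighOne

namespace HighTwo

theorem k4_iF_le {n : ℕ} (F : Finset (Finset (Fin n))) (A B : Finset (Fin n)) (hB : B ∈ F) :
    iF F A ≤ (A ∩ B).card := Nat.sInf_le ⟨B, hB, rfl⟩

theorem k4_term (n k i t : ℕ) (hkn : k ≤ n) (ht : t ≤ k) (hi : i ≤ k - t) :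
    (1 : ℚ) / (((n - i).choose (k - i) : ℕ) : ℚ) ≤ 1 / (((n - k + t).choose t : ℕ) : ℚ) := by
  have h1 : (n - k + t).choose t ≤ (n - i).choose (k - i) := by
    have e1 : (n - k + t).choose t = (n - k + t).choose (n - k) := by
      rw [← Nat.choose_symm (by omega : t ≤ n - k + t)]
      congr 1; omega
    have e2 : (n - i).choose (k - i) = (n - i).choose (n - k) := by
      rw [← Nat.choose_symm (by omega : k - i ≤ n - i)]
      congr 1; omega
    rw [e1, e2]
    exact Nat.choose_le_choose _ (by omega)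
  have h0 : 0 < (n - k + t).choose t := Nat.choose_pos (by omega)
  apply one_div_le_one_div_of_le
  · exact_mod_cast h0
  · exact_mod_cast h1

theorem k4_inter_lt {n k : ℕ} (A B : Finset (Fin n)) (hA : A.card = k) (hB : B.card = k) (h : A ≠ B) :
    (A ∩ B).card ≤ k - 1 := by
  by_contra hc
  have h1 : k ≤ (A ∩ B).card := by omega
  have h2 : A ∩ B = A := Finset.eq_of_subset_of_card_le Finset.inter_subset_left (by omega)
  have h3 : A ⊆ B := Finset.inter_eq_left.mp h2
  exact h (Finset.eq_of_subset_of_card_le h3 (by omega))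

/-- two members A ≠ B, both meeting every member in ≥ k-1 elements. -/
theorem caseIK (n k : ℕ) (hk : 3 ≤ k) (hn : 3 * k - 2 ≤ n) (F : Finset (Finset (Fin n))) (hF : ∀ A ∈ F, A.card = k)
    (A B : Finset (Fin n)) (hA : A ∈ F) (hB : B ∈ F) (hAB : A ≠ B)
    (hA2 : ∀ C ∈ F, k - 1 ≤ (A ∩ C).card) (hB2 : ∀ C ∈ F, k - 1 ≤ (B ∩ C).card) : Phi n k F ≤ 1 := by
  classical
  obtain ⟨m, hm⟩ : ∃ m, m = n - k := ⟨_, rfl⟩
  have hnm : n = m + k := by omega
  have hm2 : 2 * k - 2 ≤ m := by omega
  have hAk := hF A hA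
  have hBk := hF B hB
  have hP : (A ∩ B).card = k - 1 := le_antisymm (k4_inter_lt A B hAk hBk hAB) (hA2 B hB)
  have hU : (A ∪ B).card = k + 1 := by
    have := Finset.card_union_add_card_inter A B
    omega
  -- every term ≤ 1/(m+1)
  have hterm1 : ∀ C ∈ F, (1 : ℚ) / (((n - iF F C).choose (k - iF F C) : ℕ) : ℚ) ≤ 1 / ((m : ℚ) + 1) := by
    intro C hC
    have hi : iF F C ≤ k - 1 := by
      by_cases hCA : C = A
      · subst hCA
        exact (k4_iF_le F C B hB).trans (k4_inter_lt C B hAk hBk hAB)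
      · exact (k4_iF_le F C A hA).trans (k4_inter_lt C A (hF C hC) hAk hCA)
    have := k4_term n k (iF F C) 1 (by omega) (by omega) hi
    rw [Nat.choose_one_right, ← hm] at this
    push_cast at this
    exact this
  have hterm2 : ∀ C ∈ F, ∀ D ∈ F, (C ∩ D).card ≤ k - 2 →
      (1 : ℚ) / (((n - iF F C).choose (k - iF F C) : ℕ) : ℚ) ≤ 2 / (((m : ℚ) + 1) * (m + 2)) := by
    intro C hC D hD hCD
    have hi : iF F C ≤ k - 2 := (k4_iF_le F C D hD).trans hCD
    have := k4_term n k (iF F C) 2 (by omega) (by omega) hi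
    rw [← hm] at this
    have e : (((m + 2).choose 2 : ℕ) : ℚ) = ((m : ℚ) + 1) * (m + 2) / 2 := by
      rw [Nat.cast_choose_two]
      push_cast
      ring
    rw [e] at this
    refine this.trans (le_of_eq ?_)
    have : ((m : ℚ) + 1) * (m + 2) ≠ 0 := by positivity
    field_simp
  have hm0 : (0 : ℚ) < (m : ℚ) + 1 := by positivity
  have hdiff : ∀ C ∈ F, ∀ D ∈ F, ∀ p, p ∈ A → p ∉ D → A.erase p ⊆ D := by
    intro C _ D hD p hp hpD
    have h1 : A ∩ D ⊆ A.erase p := by
      intro q hq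
      rw [Finset.mem_inter] at hq
      refine Finset.mem_erase.mpr ⟨?_, hq.1⟩
      rintro rfl
      exact hpD hq.2
    have h2 : A ∩ D = A.erase p := Finset.eq_of_subset_of_card_le h1 (by
      rw [Finset.card_erase_of_mem hp, hAk]; exact hA2 D hD)
    rw [← h2]; exact Finset.inter_subset_right
  have hdiff' : ∀ D ∈ F, ∀ p, p ∈ B → p ∉ D → B.erase p ⊆ D := by
    intro D hD p hp hpD
    have h1 : B ∩ D ⊆ B.erase p := by
      intro q hq
      rw [Finset.mem_inter] at hq
      refine Finset.mem_erase.mpr ⟨?_, hq.1⟩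
      rintro rfl
      exact hpD hq.2
    have h2 : B ∩ D = B.erase p := Finset.eq_of_subset_of_card_le h1 (by
      rw [Finset.card_erase_of_mem hp, hBk]; exact hB2 D hD)
    rw [← h2]; exact Finset.inter_subset_right
  have hDform : ∀ D ∈ F, ∀ p, p ∈ A ∩ B → p ∉ D → (A ∪ B).erase p = D := by
    intro D hD p hp hpD
    rw [Finset.mem_inter] at hp
    have h1 : (A ∪ B).erase p ⊆ D := by
      intro q hq
      rw [Finset.mem_erase, Finset.mem_union] at hq
      rcases hq.2 with h | h
      · exact hdiff A hA D hD p hp.1 hpD (Finset.mem_erase.mpr ⟨hq.1, h⟩)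
      · exact hdiff' D hD p hp.2 hpD (Finset.mem_erase.mpr ⟨hq.1, h⟩)
    refine Finset.eq_of_subset_of_card_le h1 ?_
    rw [Finset.card_erase_of_mem (Finset.mem_union_left _ hp.1), hU, hF D hD]
    omega
  have hCform : ∀ C ∈ F, A ∩ B ⊆ C → ∃ y, y ∉ A ∩ B ∧ C = insert y (A ∩ B) := by
    intro C hC hPC
    have h1 : (C \ (A ∩ B)).card = 1 := by
      rw [Finset.card_sdiff_of_subset hPC, hF C hC, hP]; omega
    obtain ⟨y, hy⟩ := Finset.card_eq_one.mp h1
    have hyC : y ∈ C \ (A ∩ B) := by rw [hy]; exact Finset.mem_singleton_self y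
    rw [Finset.mem_sdiff] at hyC
    refine ⟨y, hyC.2, ?_⟩
    have h2 : C = (C \ (A ∩ B)) ∪ (A ∩ B) := (Finset.sdiff_union_of_subset hPC).symm
    rw [hy] at h2
    rw [h2, Finset.singleton_union]
  unfold Phi
  by_cases hall : ∀ C ∈ F, A ∩ B ⊆ C
  · have hcard : F.card ≤ m + 1 := by
      have hsub : F ⊆ (Finset.univ \ (A ∩ B)).image (fun y => insert y (A ∩ B)) := by
        intro C hC
        obtain ⟨y, hy, hCy⟩ := hCform C hC (hall C hC)
        rw [Finset.mem_image]
        exact ⟨y, Finset.mem_sdiff.mpr ⟨Finset.mem_univ _, hy⟩, hCy.symm⟩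
      refine (Finset.card_le_card hsub).trans (Finset.card_image_le.trans ?_)
      rw [Finset.card_sdiff_of_subset (Finset.subset_univ _), Finset.card_univ, Fintype.card_fin, hP]
      omega
    calc ∑ C ∈ F, (1 : ℚ) / (((n - iF F C).choose (k - iF F C) : ℕ) : ℚ)
        ≤ ∑ _C ∈ F, 1 / ((m : ℚ) + 1) := Finset.sum_le_sum hterm1
      _ = F.card * (1 / ((m : ℚ) + 1)) := by rw [Finset.sum_const, nsmul_eq_mul]
      _ ≤ ((m : ℚ) + 1) * (1 / ((m : ℚ) + 1)) := by
          apply mul_le_mul_of_nonneg_right _ (by positivity)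
          exact_mod_cast hcard
      _ = 1 := by field_simp
  · push Not at hall
    obtain ⟨D, hD, hPD⟩ := hall
    obtain ⟨p, hp, hpD⟩ := Finset.not_subset.mp hPD
    have hDe := hDform D hD p hp hpD
    set F2 := F.filter (fun C => A ∩ B ⊆ C ∧ C ≠ A ∧ C ≠ B) with hF2
    set F1 := F.filter (fun C => ¬ (A ∩ B ⊆ C ∧ C ≠ A ∧ C ≠ B)) with hF1
    have hsplit := Finset.sum_filter_add_sum_filter_not F (fun C => A ∩ B ⊆ C ∧ C ≠ A ∧ C ≠ B)
      (fun C => (1 : ℚ) / (((n - iF F C).choose (k - iF F C) : ℕ) : ℚ))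
    rw [← hsplit]
    have hc1 : F1.card ≤ k + 1 := by
      have hsub : F1 ⊆ insert A (insert B ((A ∩ B).image (fun q => (A ∪ B).erase q))) := by
        intro C hC
        rw [hF1, Finset.mem_filter] at hC
        rw [Finset.mem_insert, Finset.mem_insert]
        by_cases h1 : C = A
        · exact Or.inl h1
        by_cases h2 : C = B
        · exact Or.inr (Or.inl h2)
        refine Or.inr (Or.inr ?_)
        have h3 : ¬ A ∩ B ⊆ C := fun h => hC.2 ⟨h, h1, h2⟩
        obtain ⟨q, hq, hqC⟩ := Finset.not_subset.mp h3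
        rw [Finset.mem_image]
        exact ⟨q, hq, hDform C hC.1 q hq hqC⟩
      refine (Finset.card_le_card hsub).trans ?_
      have a1 := Finset.card_insert_le A (insert B ((A ∩ B).image (fun q => (A ∪ B).erase q)))
      have a2 := Finset.card_insert_le B ((A ∩ B).image (fun q => (A ∪ B).erase q))
      have a3 : ((A ∩ B).image (fun q => (A ∪ B).erase q)).card ≤ (A ∩ B).card := Finset.card_image_le
      omega
    have hc2 : F2.card ≤ m - 1 := by
      have hsub : F2 ⊆ (Finset.univ \ (A ∪ B)).image (fun y => insert y (A ∩ B)) := by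
        intro C hC
        rw [hF2, Finset.mem_filter] at hC
        obtain ⟨hCF, hPC, hCA, hCB⟩ := hC
        obtain ⟨y, hy, hCy⟩ := hCform C hCF hPC
        rw [Finset.mem_image]
        refine ⟨y, Finset.mem_sdiff.mpr ⟨Finset.mem_univ _, ?_⟩, hCy.symm⟩
        intro hyU
        rw [Finset.mem_union] at hyU
        rcases hyU with h | h
        · apply hCA
          refine Finset.eq_of_subset_of_card_le ?_ (by rw [hF C hCF, hAk])
          rw [hCy]
          exact Finset.insert_subset h Finset.inter_subset_left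
        · apply hCB
          refine Finset.eq_of_subset_of_card_le ?_ (by rw [hF C hCF, hBk])
          rw [hCy]
          exact Finset.insert_subset h Finset.inter_subset_right
      refine (Finset.card_le_card hsub).trans (Finset.card_image_le.trans ?_)
      rw [Finset.card_sdiff_of_subset (Finset.subset_univ _), Finset.card_univ, Fintype.card_fin, hU]
      omega
    have ht2 : ∀ C ∈ F2, (1 : ℚ) / (((n - iF F C).choose (k - iF F C) : ℕ) : ℚ) ≤ 2 / (((m : ℚ) + 1) * (m + 2)) := by
      intro C hC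
      rw [hF2, Finset.mem_filter] at hC
      obtain ⟨hCF, hPC, hCA, hCB⟩ := hC
      refine hterm2 C hCF D hD ?_
      obtain ⟨y, hy, hCy⟩ := hCform C hCF hPC
      have hyA : y ∉ A ∪ B := by
        intro hyU
        rw [Finset.mem_union] at hyU
        rcases hyU with h | h
        · apply hCA
          refine Finset.eq_of_subset_of_card_le ?_ (by rw [hF C hCF, hAk])
          rw [hCy]
          exact Finset.insert_subset h Finset.inter_subset_left
        · apply hCB
          refine Finset.eq_of_subset_of_card_le ?_ (by rw [hF C hCF, hBk])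
          rw [hCy]
          exact Finset.insert_subset h Finset.inter_subset_right
      have hsub : C ∩ D ⊆ (A ∩ B).erase p := by
        intro q hq
        rw [Finset.mem_inter, hCy, Finset.mem_insert] at hq
        have hqD : q ∈ (A ∪ B).erase p := by rw [hDe]; exact hq.2
        rw [Finset.mem_erase] at hqD
        rcases hq.1 with h | h
        · exact absurd (h ▸ hqD.2) hyA
        · exact Finset.mem_erase.mpr ⟨hqD.1, h⟩
      refine (Finset.card_le_card hsub).trans ?_
      rw [Finset.card_erase_of_mem hp, hP]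
      omega
    have hs2 : ∑ C ∈ F2, (1 : ℚ) / (((n - iF F C).choose (k - iF F C) : ℕ) : ℚ)
        ≤ ((m : ℚ) - 1) * (2 / (((m : ℚ) + 1) * (m + 2))) := by
      refine (Finset.sum_le_sum ht2).trans ?_
      rw [Finset.sum_const, nsmul_eq_mul]
      apply mul_le_mul_of_nonneg_right _ (by positivity)
      have h1 : F2.card + 1 ≤ m := by omega
      have h2 : ((F2.card : ℚ)) + 1 ≤ m := by exact_mod_cast h1
      linarith
    have hs1 : ∑ C ∈ F1, (1 : ℚ) / (((n - iF F C).choose (k - iF F C) : ℕ) : ℚ)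
        ≤ ((k : ℚ) + 1) * (1 / ((m : ℚ) + 1)) := by
      refine (Finset.sum_le_sum (fun C hC => hterm1 C (Finset.mem_of_mem_filter C hC))).trans ?_
      rw [Finset.sum_const, nsmul_eq_mul]
      apply mul_le_mul_of_nonneg_right _ (by positivity)
      exact_mod_cast hc1
    refine (add_le_add hs2 hs1).trans ?_
    have hkm : (k : ℚ) * m + 2 * k ≤ (m : ℚ) ^ 2 + 2 := by
      have hk3 : (3 : ℚ) ≤ k := by exact_mod_cast hk
      have hmk : 2 * (k : ℚ) - 2 ≤ m := by
        have : 2 * k ≤ m + 2 := by omega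
        have h' : (2 : ℚ) * k ≤ m + 2 := by exact_mod_cast this
        linarith
      nlinarith [mul_nonneg (sub_nonneg.mpr hmk) (sub_nonneg.mpr hmk), mul_nonneg (sub_nonneg.mpr hmk) (sub_nonneg.mpr hk3), mul_nonneg (sub_nonneg.mpr hk3) (sub_nonneg.mpr hk3)]
    have h2 : (0 : ℚ) < (m : ℚ) + 2 := by positivity
    have e : ((m : ℚ) - 1) * (2 / (((m : ℚ) + 1) * (m + 2))) + ((k : ℚ) + 1) * (1 / ((m : ℚ) + 1))
        = (2 * (m - 1) + (k + 1) * (m + 2)) / (((m : ℚ) + 1) * (m + 2)) := by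
      field_simp
    rw [e, div_le_one (by positivity)]
    nlinarith

end HighTwo

theorem iF_le {n : ℕ} {F : Finset (Finset (Fin n))} {A B : Finset (Fin n)} (hB : B ∈ F) :
    iF F A ≤ (A ∩ B).card := Nat.sInf_le ⟨B, hB, rfl⟩

theorem iF_spec {n : ℕ} {F : Finset (Finset (Fin n))} {A : Finset (Fin n)} (hA : A ∈ F) :
    ∃ B ∈ F, iF F A = (A ∩ B).card := by
  have : iF F A ∈ {m | ∃ B ∈ F, m = (A ∩ B).card} := Nat.sInf_mem ⟨_, A, hA, rfl⟩
  exact this

theorem low_main
    (caseIIK : ∀ (N k : ℕ) (_ : 1 ≤ k) (_ : 2 * k ≤ N) (F0 F1 : Finset (Finset (Fin N))) (_ : ∀ A ∈ F0, A.card = k)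
      (_ : ∀ A ∈ F1, A.card = k) (_ : Disjoint F0 F1)
      (_ : ∀ A ∈ F1, ∀ B ∈ F0 ∪ F1, (A ∩ B).Nonempty),
      k * F0.card + N * F1.card ≤ k * N.choose k)
    (k n : ℕ) (hk : 1 ≤ k) (hn : 2 * k ≤ n) (F : Finset (Finset (Fin n))) (hF : ∀ A ∈ F, A.card = k)
    (h2 : ∀ A ∈ F, iF F A ≤ 1) : Phi n k F ≤ 1 := by
  classical
  obtain ⟨k, rfl⟩ : ∃ k', k = k' + 1 := ⟨k - 1, by omega⟩
  obtain ⟨m, rfl⟩ : ∃ m, n = m + 1 := ⟨n - 1, by omega⟩
  have key := caseIIK (m+1) (k+1) hk hn (F.filter (fun A => iF F A = 0)) (F.filter (fun A => iF F A ≠ 0))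
    (fun A hA => hF A (Finset.mem_filter.mp hA).1) (fun A hA => hF A (Finset.mem_filter.mp hA).1)
    (Finset.disjoint_filter_filter_not _ _ _) (by
      intro A hA B hB
      have hA' := Finset.mem_filter.mp hA
      have hB' : B ∈ F := by
        rcases Finset.mem_union.mp hB with h | h
        · exact (Finset.mem_filter.mp h).1
        · exact (Finset.mem_filter.mp h).1
      have := iF_le (A := A) hB'
      rw [← Finset.card_pos]
      have h5 := hA'.2
      omega)
  have hphi : Phi (m+1) (k+1) F = (F.filter (fun A => iF F A = 0)).card * (1 / ((m+1).choose (k+1) : ℚ))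
      + (F.filter (fun A => iF F A ≠ 0)).card * (1 / (m.choose k : ℚ)) := by
    unfold Phi
    rw [← Finset.sum_filter_add_sum_filter_not F (fun A => iF F A = 0)]
    congr 1
    · rw [← nsmul_eq_mul]
      apply Finset.sum_eq_card_nsmul
      intro A hA
      rw [(Finset.mem_filter.mp hA).2]
      simp
    · rw [← nsmul_eq_mul]
      apply Finset.sum_eq_card_nsmul
      intro A hA
      have hA' := Finset.mem_filter.mp hA
      have h6 := h2 A hA'.1
      have h7 : iF F A = 1 := by
        have := hA'.2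
        omega
      rw [h7]
      simp
  rw [hphi]
  have hch : (k+1) * (m+1).choose (k+1) = (m+1) * m.choose k := by
    have := Nat.add_one_mul_choose_eq m k
    linarith
  have hpos3 : (0 : ℚ) < ((m+1).choose (k+1) : ℚ) := by
    exact_mod_cast Nat.choose_pos (by omega)
  have hpos2 : (0 : ℚ) < (m.choose k : ℚ) := by
    exact_mod_cast Nat.choose_pos (by omega)
  have hchq : ((k : ℚ) + 1) * ((m+1).choose (k+1) : ℚ) = ((m : ℚ)+1) * (m.choose k : ℚ) := by
    exact_mod_cast hch
  have keyq : ((k : ℚ) + 1) * ((F.filter (fun A => iF F A = 0)).card : ℚ)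
      + ((m : ℚ)+1) * ((F.filter (fun A => iF F A ≠ 0)).card : ℚ) ≤ ((k : ℚ) + 1) * ((m+1).choose (k+1) : ℚ) := by
    exact_mod_cast key
  have hm : (0 : ℚ) < (m : ℚ) + 1 := by positivity
  have hkq : (0 : ℚ) < (k : ℚ) + 1 := by positivity
  generalize ((F.filter (fun A => iF F A = 0)).card : ℚ) = a at keyq ⊢
  generalize ((F.filter (fun A => iF F A ≠ 0)).card : ℚ) = b at keyq ⊢
  generalize ((m+1).choose (k+1) : ℚ) = c at hpos3 hchq keyq ⊢
  generalize (m.choose k : ℚ) = d at hpos2 hchq ⊢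
  have h8 : 1 / d = ((m : ℚ) + 1) / (((k : ℚ) + 1) * c) := by
    rw [hchq]; field_simp
  rw [h8]
  have h9 : a * (1 / c) + b * (((m : ℚ) + 1) / (((k : ℚ) + 1) * c))
      = (((k : ℚ) + 1) * a + ((m : ℚ)+1) * b) / (((k : ℚ) + 1) * c) := by
    field_simp
  rw [h9, div_le_one (by positivity)]
  exact keyq

theorem high_main
    (caseIK : ∀ (n k : ℕ) (_ : 3 ≤ k) (_ : 3 * k - 2 ≤ n) (F : Finset (Finset (Fin n))) (_ : ∀ A ∈ F, A.card = k)
      (A B : Finset (Fin n)) (_ : A ∈ F) (_ : B ∈ F) (_ : A ≠ B)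
      (_ : ∀ C ∈ F, k - 1 ≤ (A ∩ C).card) (_ : ∀ C ∈ F, k - 1 ≤ (B ∩ C).card), Phi n k F ≤ 1)
    (caseIK' : ∀ (n k : ℕ) (_ : 3 ≤ k) (_ : 3 * k - 2 ≤ n) (F : Finset (Finset (Fin n))) (_ : ∀ A ∈ F, A.card = k)
      (A : Finset (Fin n)) (_ : A ∈ F) (_ : ∀ C ∈ F, k - 1 ≤ (A ∩ C).card)
      (_ : ∀ B ∈ F, B ≠ A → ∃ C ∈ F, (B ∩ C).card ≤ k - 2) (_ : 2 ≤ F.card), Phi n k F ≤ 1)
    (k n : ℕ) (hk : 3 ≤ k) (hn : 3 * k - 2 ≤ n) (F : Finset (Finset (Fin n))) (hF : ∀ A ∈ F, A.card = k)
    (h2 : ∃ A ∈ F, k - 1 ≤ iF F A) : Phi n k F ≤ 1 := by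
  classical
  obtain ⟨A, hA, hA2⟩ := h2
  have hA2' : ∀ C ∈ F, k - 1 ≤ (A ∩ C).card := fun C hC => hA2.trans (iF_le hC)
  by_cases h3 : ∃ B ∈ F, B ≠ A ∧ k - 1 ≤ iF F B
  · obtain ⟨B, hB, hBA, hB2⟩ := h3
    exact caseIK n k hk hn F hF A B hA hB hBA.symm hA2' (fun C hC => hB2.trans (iF_le hC))
  · push Not at h3
    by_cases hc : 2 ≤ F.card
    · refine caseIK' n k hk hn F hF A hA hA2' ?_ hc
      intro B hB hBA
      have h4 := h3 B hB hBA
      obtain ⟨C, hC, hC'⟩ := iF_spec hB
      exact ⟨C, hC, by omega⟩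
    · have hc1 : F.card = 1 := by
        have : 0 < F.card := Finset.card_pos.mpr ⟨A, hA⟩
        omega
      obtain ⟨A', hA'⟩ := Finset.card_eq_one.mp hc1
      subst hA'
      have hAA : A = A' := by simpa using hA
      subst hAA
      have : iF {A} A = k := by
        obtain ⟨B, hB, hB'⟩ := iF_spec hA
        have : B = A := by simpa using hB
        subst this
        rw [hB', Finset.inter_self, hF B hA]
      simp [Phi, this]

/-- The range of Q1 lies in the range `n ≥ 3k - 2`. -/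
theorem three_mul_sub_le_Nk (k : ℕ) (hk : 3 ≤ k) : 3 * k - 2 ≤ Nk k := by
  unfold Nk
  rcases Nat.even_or_odd' k with ⟨q, rfl | rfl⟩
  · have h1 : (2 * q + 1) / 2 = q := by omega
    have h2 : 2 * q / 2 = q := by omega
    rw [h1, h2]
    obtain ⟨r, rfl⟩ : ∃ r, q = r + 2 := ⟨q - 2, by omega⟩
    have : 3 * (2 * (r + 2)) ≤ 2 * (r + 2) + (r + 2) * (r + 2 + 1) + 2 := by nlinarith
    omega
  · have h1 : (2 * q + 1 + 1) / 2 = q + 1 := by omega
    have h2 : (2 * q + 1) / 2 = q := by omega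
    rw [h1, h2]
    obtain ⟨r, rfl⟩ : ∃ r, q = r + 1 := ⟨q - 1, by omega⟩
    have : 3 * (2 * (r + 1) + 1) ≤ 2 * (r + 1) + 1 + (r + 1 + 1) * (r + 1 + 1) + 2 := by nlinarith
    omega

theorem low (k n : ℕ) (hk : 1 ≤ k) (hn : 2 * k ≤ n) (F : Finset (Finset (Fin n)))
    (hF : ∀ A ∈ F, A.card = k) (h : ∀ A ∈ F, iF F A ≤ 1) : Phi n k F ≤ 1 :=
  low_main (fun N k hk hN F0 F1 h0 h1 hd h =>
    Low.caseIIK (fun N k _ a b X0 X1 c d => Circle.circleK N k a b X0 X1 c d)
      (fun N _ f S C hl => Avg.avg N f S C hl) N k hk hN F0 F1 h0 h1 hd h) k n hk hn F hF h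

theorem high (k n : ℕ) (hk : 3 ≤ k) (hn : 3 * k - 2 ≤ n) (F : Finset (Finset (Fin n)))
    (hF : ∀ A ∈ F, A.card = k) (h : ∃ A ∈ F, k - 1 ≤ iF F A) : Phi n k F ≤ 1 :=
  high_main (fun n k hk hn F hF A B hA hB hAB hA2 hB2 =>
      HighTwo.caseIK n k hk hn F hF A B hA hB hAB hA2 hB2)
    (fun n k hk hn F hF A hA hA2 h h2 => HighOne.caseIK' n k hk hn F hF A hA hA2 h h2) k n hk hn F hF h

/-- Q1 for `k = 3` (then `3 k - 2 = 7 = N_3`), and for every `k ≥ 3` for the families without a member of level `≥ 2`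
and for the families with a member of level `≥ k - 1`; the range `n ≥ 3 k - 2` contains the range `n ≥ N_k`
(`three_mul_sub_le_Nk`). -/
theorem result (k n : ℕ) (hk : 3 ≤ k) (hn : 3 * k - 2 ≤ n) (F : Finset (Finset (Fin n)))
    (hF : ∀ A ∈ F, A.card = k)
    (hlev : k = 3 ∨ (∀ A ∈ F, iF F A ≤ 1) ∨ (∃ A ∈ F, k - 1 ≤ iF F A)) :
    Phi n k F ≤ 1 := by
  rcases hlev with rfl | h | h
  · by_cases h : ∃ A ∈ F, 3 - 1 ≤ iF F A
    · exact high 3 n le_rfl hn F hF h
    · push Not at h
      exact low 3 n (by norm_num) (by omega) F hF (fun A hA => by have := h A hA; omega)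
  · exact low k n (by omega) (by omega) F hF h
  · exact high k n hk hn F hF h

end Pool.Agent.Results.MP_cd9ed6_co.LevelBounds
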